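import Pool.Agent.Lib.MP_e54452_nt.VV.D3

/-!
# The depth filtration of the space of multiple zeta values does not stop

Notation (`Pool/Agent/Lib/MP_e54452_nt/Mzv.lean`, `DF/Defs.lean`): `MPe54452.hs l N` is the
truncated nested harmonic sum, `MPe54452.mzv [a₁, …, a_r] = ∑_{k₁ > ⋯ > k_r ≥ 1} k₁^(-a₁) ⋯ k_r^(-a_r)`
(with `mzv [] = 1`; `r` is the depth, `a₁ + ⋯ + a_r` the weight), `MPe54452.Adm` says that all exponents
are positive and the first one is at least two, and `MPe54452.DZ R k` is the rational span of the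
multiple zeta values of weight `k` and depth at most `R`. Unconditional.
-/

set_option autoImplicit false

namespace Pool.Agent.Results.MP_e54452_nt.DepthFiltration

open Module MPe54452

/-- A lower bound for the dimension of the space of the multiple zeta values of given weight and bounded
depth: explicit for every depth `3 q + 2` and all weights `k ≥ 4 q + 6`, and for fixed `q` of order `k ^ (q - 1)`.
In particular, for every real `A > 3` there is `K` such that for all `ρ ≥ 1` and all `k ≥ K ρ` the dimension in depth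
at most `⌊A ρ⌋ + 5` is larger than the number of all admissible exponent sequences of weight `k` and depth at most
`ρ`, and so `DZ ρ k` is strictly smaller than `DZ (⌊A ρ⌋ + 5) k`. -/
theorem result :
    (∀ q k : ℕ, 4 * q + 6 ≤ k →
      ((((k - 2) / 2 - q - 1).choose q : ℕ) : ℝ) / (26 * 8 ^ q * ((k : ℝ) - 1)) ≤
        finrank ℚ (DZ (3 * q + 2) k)) ∧
    ∀ A : ℝ, 3 < A → ∃ K : ℕ, ∀ k ρ : ℕ, 1 ≤ ρ → K * ρ ≤ k →
      {l : List ℕ | Adm l ∧ l.sum = k ∧ l.length ≤ ρ}.ncard < finrank ℚ (DZ (⌊A * ρ⌋₊ + 5) k) ∧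
      DZ ρ k < DZ (⌊A * ρ⌋₊ + 5) k := by
  constructor
  · intro q k hk
    have h := MZG.explicit2 q k hk
    have h1 : (1 : ℝ) < k := by
      have : 1 < k := by omega
      exact_mod_cast this
    have h2 : (0 : ℝ) < 26 * 8 ^ q * ((k : ℝ) - 1) := mul_pos (by positivity) (by linarith)
    rw [div_le_iff₀ h2]
    have h3 : (((k - 1 : ℕ) : ℝ)) = (k : ℝ) - 1 := by
      rw [Nat.cast_sub (by omega)]
      norm_num
    have h4 : ((((k - 2) / 2 - q - 1).choose q : ℕ) : ℝ) ≤
        ((26 * 8 ^ q * ((k - 1) * finrank ℚ (DZ (3 * q + 2) k)) : ℕ) : ℝ) := by exact_mod_cast h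
    refine h4.trans (le_of_eq ?_)
    push_cast
    rw [h3]
    ring
  intro A hA
  obtain ⟨K, hK, h⟩ := MZG.depth3c A hA
  refine ⟨K + 2, fun k ρ hρ hk => ?_⟩
  have hk' : K * ρ ≤ k := le_trans (Nat.mul_le_mul_right _ (by omega)) hk
  have h1 := h k ρ hρ hk'
  refine ⟨h1, ?_⟩
  have hk2 : 2 ≤ k := by nlinarith
  have hle : ρ ≤ ⌊A * ρ⌋₊ + 5 := by
    have : ρ ≤ ⌊A * ρ⌋₊ := by
      apply Nat.le_floor
      have hρ0 : (0 : ℝ) ≤ ρ := Nat.cast_nonneg ρ
      nlinarith
    omega
  refine lt_of_le_of_ne (MZG.DZ_mono hle k) (fun heq => ?_)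
  have h2 := MZG.finrank_DZ_le k ρ hk2
  rw [← (MZG.ncard_adm k ρ hk2).2, heq] at h2
  omega

end Pool.Agent.Results.MP_e54452_nt.DepthFiltration
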