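import Pool.Agent.Lib.MP_e54452_nt.TH.Growth3

/-!
# Exponential growth of the spaces of multiple zeta values

Notation (`Pool/Agent/Lib/MP_e54452_nt/Mzv.lean`): `MPe54452.hs l N` is the truncated nested harmonic
sum, `MPe54452.mzv [a₁, …, a_r] = ∑_{k₁ > ⋯ > k_r ≥ 1} k₁^(-a₁) ⋯ k_r^(-a_r)` (with `mzv [] = 1`),
`MPe54452.Adm` says that all exponents are positive and the first one is at least two, and
`MPe54452.Z k` is the rational span of the multiple zeta values of weight `k`.
Unconditional.
-/

set_option autoImplicit false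

namespace Pool.Agent.Results.MP_e54452_nt.ExponentialGrowth

open Module MPe54452

/-- For every weight `k ≥ 2` the rational span `Z k` of the multiple zeta values of weight `k`
has dimension at least `2 ^ (k/3) / (16 k ^ (5/3))`. -/
theorem result (k : ℕ) (hk : 2 ≤ k) :
    (2 : ℝ) ^ ((k : ℝ) / 3) / (16 * (k : ℝ) ^ ((5 : ℝ) / 3)) ≤ (finrank ℚ (Z k) : ℝ) := by
  have h := MZG.growth3_Z k hk
  have hk1 : (0 : ℝ) < (k : ℝ) := by
    have : 0 < k := by omega
    exact_mod_cast this
  have hk0 : (0 : ℝ) < 16 * (k : ℝ) ^ ((5 : ℝ) / 3) := by positivity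
  rw [div_le_iff₀ hk0]
  linarith

end Pool.Agent.Results.MP_e54452_nt.ExponentialGrowth
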