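import Pool.Agent.Lib.MP_e54452_nt.TH.Growth3
import Pool.Agent.Lib.MP_e54452_nt.NewWeight

/-!
# Exponentially many multiple zeta values that are new modulo products and modulo lower weights

Notation (`Pool/Agent/Lib/MP_e54452_nt/Mzv.lean`): `MPe54452.hs l N` is the truncated nested harmonic
sum, `MPe54452.mzv [a₁, …, a_r] = ∑_{k₁ > ⋯ > k_r ≥ 1} k₁^(-a₁) ⋯ k_r^(-a_r)` (with `mzv [] = 1`),
`MPe54452.Adm` says that all exponents are positive and the first one is at least two, and
`MPe54452.Z k` is the rational span of the multiple zeta values of weight `k`; `Z i * Z j` is the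
rational span of the products of an element of `Z i` and an element of `Z j`, and
`MPe54452.ZLe k = ⨆ j ≤ k, Z j` is the span of all multiple zeta values of weight at most `k`.
Unconditional.
-/

set_option autoImplicit false

namespace Pool.Agent.Results.MP_e54452_nt.IrreducibleGrowth

open Module MPe54452

/-- For every `y` with `0 ≤ y < 2 ^ (1/3)` there are infinitely many weights `k` such that the space
spanned by all multiple zeta values of weight less than `k` and all products of an element of `Z i`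
and an element of `Z (k - i)`, `0 < i < k`, has codimension greater than `y ^ k` in the space of all
multiple zeta values of weight at most `k`. In particular (last inequality) the span of these
products has codimension greater than `y ^ k` in `Z k`. -/
theorem result (y : ℝ) (hy : 0 ≤ y) (hyy : y < (2 : ℝ) ^ ((1 : ℝ) / 3)) (N : ℕ) :
    ∃ k : ℕ, N ≤ k ∧ (⨆ i ∈ Finset.Ioo 0 k, Z i * Z (k - i)) ≤ Z k ∧
      y ^ k < (finrank ℚ (ZLe k) : ℝ) -
        (finrank ℚ (ZLe (k - 1) ⊔ ⨆ i ∈ Finset.Ioo 0 k, Z i * Z (k - i) : Submodule ℚ ℝ) : ℝ) ∧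
      (finrank ℚ (ZLe k) : ℝ) -
        (finrank ℚ (ZLe (k - 1) ⊔ ⨆ i ∈ Finset.Ioo 0 k, Z i * Z (k - i) : Submodule ℚ ℝ) : ℝ) ≤
      (finrank ℚ (Z k) : ℝ) -
        (finrank ℚ (⨆ i ∈ Finset.Ioo 0 k, Z i * Z (k - i) : Submodule ℚ ℝ) : ℝ) := by
  have hy0 : (1 : ℝ) < (2 : ℝ) ^ ((1 : ℝ) / 3) :=
    Real.one_lt_rpow (by norm_num) (by norm_num)
  have hg : ∀ k : ℕ, 2 ≤ k →
      (1 / 16 : ℝ) * ((2 : ℝ) ^ ((1 : ℝ) / 3)) ^ k / (k : ℝ) ^ 2 ≤ (finrank ℚ (Z k) : ℝ) := by
    intro k hk
    have e : ((2 : ℝ) ^ ((1 : ℝ) / 3)) ^ k = (2 : ℝ) ^ ((k : ℝ) / 3) := by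
      rw [← Real.rpow_natCast, ← Real.rpow_mul (by norm_num)]
      congr 1
      ring
    rw [e]
    have h := MZG.growth3_Z' k hk
    have hk0 : (0 : ℝ) < (k : ℝ) ^ 2 := by
      have : (0 : ℝ) < (k : ℝ) := by
        have : 0 < k := by omega
        exact_mod_cast this
      positivity
    rw [div_le_iff₀ hk0]
    linarith
  obtain ⟨k, hk, hlt⟩ := new_weight (by norm_num : (0 : ℝ) < 1 / 16) hy0 hg hy hyy (max N 2)
  exact ⟨k, (le_max_left N 2).trans hk, Dec_le Z Z_mul_le k, hlt,
    new_le_old k ((le_max_right N 2).trans hk)⟩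

end Pool.Agent.Results.MP_e54452_nt.IrreducibleGrowth
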