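import Pool.Agent.Lib.MP_e54452_nt.TF.Depth

/-!
# Multiple zeta values are not polynomials in thin families of real numbers

Notation (`Pool/Agent/Lib/MP_e54452_nt/Mzv.lean`): `MPe54452.hs l N` is the truncated nested harmonic
sum, `MPe54452.mzv [a₁, …, a_r] = ∑_{k₁ > ⋯ > k_r ≥ 1} k₁^(-a₁) ⋯ k_r^(-a_r)` (with `mzv [] = 1`),
`MPe54452.Adm` says that all exponents are positive and the first one is at least two, and
`MPe54452.Z k` is the rational span of the multiple zeta values of weight `k`.

(`TF/Count.lean`, `TF/Codim.lean`) For real numbers `x i` of weight `w i ≥ 1`,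
`wt w f = ∑ f i * w i` is the weight and `mono x f = ∏ (x i) ^ (f i)` the value of the monomial with
exponents `f`; `Pol x w K` is the rational span of the monomials of weight at most `K`, that is, the
space of the values of the polynomials with rational coefficients and weight at most `K`; and
`codim x w k K = dim Z k - dim (Z k ∩ Pol x w K)`. (`TF/Depth.lean`) `SmallDepth R` is the set of the
nonempty admissible exponent sequences whose depth is at most `R` or at most a seventeenth of their
weight. Unconditional.
-/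

set_option autoImplicit false

namespace Pool.Agent.Results.MP_e54452_nt.ThinFamilies

open Module Filter MPe54452

/-- If a family of real numbers has at most `C ρ ^ n` members of weight `n` and `ρ ^ τ < 2 ^ (1/3)`,
then for every `y < 2 ^ (1/3)` and all large `k` the polynomials of weight at most `τ k` in the members
of the family have codimension more than `y ^ k` in the space of the multiple zeta values of weight
`k`. This applies to all the multiple zeta values of depth at most `R` or at most a seventeenth of the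
weight, with `τ = 1.03`. -/
theorem result :
    (∀ (ι : Type) (x : ι → ℝ) (w : ι → ℕ) (C ρ τ y : ℝ), (∀ i, 1 ≤ w i) →
      (∀ n, {i | w i = n}.Finite ∧ ({i | w i = n}.ncard : ℝ) ≤ C * ρ ^ n) →
      1 ≤ ρ → 0 < τ → ρ ^ τ < (2 : ℝ) ^ ((1 : ℝ) / 3) → 0 ≤ y → y < (2 : ℝ) ^ ((1 : ℝ) / 3) →
      ∀ᶠ k : ℕ in atTop, ∀ K : ℕ, (K : ℝ) ≤ τ * k → y ^ k < codim x w k K) ∧
    (∀ (R : ℕ) (y : ℝ), 0 ≤ y → y < (2 : ℝ) ^ ((1 : ℝ) / 3) →
      ∀ᶠ k : ℕ in atTop, ∀ K : ℕ, (K : ℝ) ≤ 103 / 100 * k →
        y ^ k < codim (fun l : SmallDepth R => mzv l.1) (fun l => l.1.sum) k K) := by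
  refine ⟨fun ι x w C ρ τ y hw h hρ hτ hρτ hy0 hy => ?_, fun R y hy0 hy => ?_⟩
  · exact codim_exp x w hw hρ hτ hρτ (fun n => (h n).1) (fun n => (h n).2) hy0 hy
  · filter_upwards [codim_smallDepth R hy0 hy] with k hk K hK
    refine hk K ?_
    have h1 : (100 : ℝ) * K ≤ 103 * k := by linarith
    exact_mod_cast h1

end Pool.Agent.Results.MP_e54452_nt.ThinFamilies
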